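import Pool.Agent.W345.SQ.Fin1

/-! # Green's formula and the final step -/

namespace Pool.Agent.W345.SQ
open Complex Pool.Agent.W759 MeasureTheory Filter Topology
open scoped FourierTransform ComplexConjugate

/-- the function to which Green's formula is applied -/
noncomputable def FF (q : ℂ → ℂ) (s : ℝ) (z : ℂ) : ℂ := q z * ex s z

/-- its `∂̄` derivative -/
noncomputable def Phi (ψ : ℂ → ℂ) (s : ℝ) (z : ℂ) : ℂ :=
  (-I * ((z.im ^ (-1 / 2 : ℝ) : ℝ) : ℂ) * ex s z) * conj (ψ z)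

variable {ψ q : ℂ → ℂ} {C s : ℝ}

theorem im_mk (x y : ℝ) : ((x : ℂ) + y * I).im = y := by simp
theorem re_mk (x y : ℝ) : ((x : ℂ) + y * I).re = x := by simp

theorem norm_FF_le (hs : 0 < s) {z : ℂ} (hz : 0 < z.im) : ‖FF q s z‖ ≤ ‖q z‖ := by
  unfold FF
  rw [norm_mul, norm_ex]
  have : Real.exp (-(Real.pi * s * z.im)) ≤ 1 := by
    rw [Real.exp_le_one_iff]
    have := Real.pi_pos
    have : 0 < Real.pi * s * z.im := by positivity
    linarith
  calc ‖q z‖ * Real.exp (-(Real.pi * s * z.im)) ≤ ‖q z‖ * 1 :=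
        mul_le_mul_of_nonneg_left this (norm_nonneg _)
    _ = ‖q z‖ := mul_one _

theorem dFF (h : ∀ z : ℂ, 0 < z.im → ∃ q' : ℂ →L[ℝ] ℂ, HasFDerivAt q q' z ∧
      q' 1 + I * q' I = -((z.im ^ (-1 / 2 : ℝ) : ℝ) : ℂ) * (starRingEnd ℂ) (ψ z)) (s : ℝ)
    {z : ℂ} (hz : 0 < z.im) : ∃ F' : ℂ →L[ℝ] ℂ, HasFDerivAt (FF q s) F' z ∧
      I • F' 1 - F' I = Phi ψ s z := by
  obtain ⟨q', h1, h2⟩ := h z hz
  have h3 : HasDerivAt (ex s) (ex s z * (I * Real.pi * s)) z := by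
    unfold ex
    have h4 : HasDerivAt (fun z : ℂ => I * Real.pi * z * s) (I * Real.pi * s) z := by
      have := ((hasDerivAt_id z).const_mul (I * Real.pi)).mul_const (s : ℂ)
      simpa using this
    exact h4.cexp
  have h5 := h1.mul h3.complexToReal_fderiv
  refine ⟨_, h5, ?_⟩
  simp only [add_apply, smul_apply, one_apply_eq_self, smul_eq_mul]
  unfold Phi
  have h6 : I * (q' 1) - q' I = I * (q' 1 + I * q' I) := by
    linear_combination (-(q' I)) * I_mul_I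
  linear_combination (ex s z) * h6 + I * ex s z * h2 + 0 * I_mul_I

theorem q_contAt (h : ∀ z : ℂ, 0 < z.im → ∃ q' : ℂ →L[ℝ] ℂ, HasFDerivAt q q' z ∧
      q' 1 + I * q' I = -((z.im ^ (-1 / 2 : ℝ) : ℝ) : ℂ) * (starRingEnd ℂ) (ψ z)) (s : ℝ)
    {z : ℂ} (hz : 0 < z.im) : ContinuousAt (FF q s) z := by
  obtain ⟨F', h1, -⟩ := dFF h s hz
  exact h1.continuousAt

theorem line_cont (h : ∀ z : ℂ, 0 < z.im → ∃ q' : ℂ →L[ℝ] ℂ, HasFDerivAt q q' z ∧
      q' 1 + I * q' I = -((z.im ^ (-1 / 2 : ℝ) : ℝ) : ℂ) * (starRingEnd ℂ) (ψ z)) (s : ℝ)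
    {y : ℝ} (hy : 0 < y) : Continuous fun x : ℝ => FF q s (x + y * I) := by
  rw [continuous_iff_continuousAt]
  intro x
  have h1 : ContinuousAt (FF q s) ((x : ℂ) + y * I) := q_contAt h s (by rw [im_mk]; exact hy)
  exact ContinuousAt.comp (f := fun x : ℝ => (x : ℂ) + y * I) h1 (by fun_prop)

theorem line_int (h : ∀ z : ℂ, 0 < z.im → ∃ q' : ℂ →L[ℝ] ℂ, HasFDerivAt q q' z ∧
      q' 1 + I * q' I = -((z.im ^ (-1 / 2 : ℝ) : ℝ) : ℂ) * (starRingEnd ℂ) (ψ z))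
    (hq : ∀ z : ℂ, 0 < z.im → 1 < ‖z‖ → ‖q z‖ ≤ C * (z.im ^ (1 / 2 : ℝ) *
      ‖z‖ ^ (-3 / 2 : ℝ) + z.im ^ (-1 / 2 : ℝ) * ‖z‖ ^ (-1 / 2 : ℝ) * An z)) (hs : 0 < s)
    {y : ℝ} (hy : 0 < y) : Integrable fun x : ℝ => FF q s (x + y * I) := by
  have hc := line_cont h s hy
  rw [← integrableOn_univ, ← Set.union_compl_self (Set.Icc (-2 : ℝ) 2), integrableOn_union]
  refine ⟨hc.integrableOn_Icc, ?_⟩
  refine Integrable.mono' ((wt_int.const_mul (6 * |C| * y ^ (1 / 2 : ℝ))).integrableOn)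
    hc.aestronglyMeasurable ?_
  rw [ae_restrict_iff' measurableSet_Icc.compl]
  refine Eventually.of_forall fun x hx => ?_
  have hx2 : 2 ≤ |x| := by
    by_contra hcon
    push Not at hcon
    exact hx ⟨(abs_lt.1 hcon).1.le, (abs_lt.1 hcon).2.le⟩
  refine (norm_FF_le hs (by rw [im_mk]; exact hy)).trans ?_
  have := q_tail hq (z := (x : ℂ) + y * I) (by rw [im_mk]; exact hy) (by rw [re_mk]; exact hx2)
  rw [im_mk, re_mk] at this
  exact this

theorem J_large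
    (hq : ∀ z : ℂ, 0 < z.im → 1 < ‖z‖ → ‖q z‖ ≤ C * (z.im ^ (1 / 2 : ℝ) *
      ‖z‖ ^ (-3 / 2 : ℝ) + z.im ^ (-1 / 2 : ℝ) * ‖z‖ ^ (-1 / 2 : ℝ) * An z))
    {y : ℝ} (hy : 1 < y) : ‖∫ x : ℝ, FF q s (x + y * I)‖ ≤
      (20 * |C| * ∫ x, wt x) * (y ^ (1 / 2 : ℝ) * Real.exp (-(Real.pi * s) * y)) := by
  have h1 : ‖∫ x : ℝ, FF q s (x + y * I)‖ ≤
      ∫ x, (20 * |C| * (y ^ (1 / 2 : ℝ) * Real.exp (-(Real.pi * s) * y))) * wt x := by
    refine norm_integral_le_of_norm_le (wt_int.const_mul _) (Eventually.of_forall fun x => ?_)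
    have := q_large hq (z := (x : ℂ) + y * I) (by rw [im_mk]; exact hy)
    rw [im_mk, re_mk] at this
    unfold FF
    rw [norm_mul, norm_ex, im_mk]
    calc ‖q (x + y * I)‖ * Real.exp (-(Real.pi * s * y))
        ≤ 20 * |C| * y ^ (1 / 2 : ℝ) * wt x * Real.exp (-(Real.pi * s * y)) :=
          mul_le_mul_of_nonneg_right this (Real.exp_pos _).le
      _ = (20 * |C| * (y ^ (1 / 2 : ℝ) * Real.exp (-(Real.pi * s) * y))) * wt x := by
          rw [neg_mul]; ring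
  rw [integral_const_mul] at h1
  refine h1.trans (le_of_eq ?_)
  ring

theorem J_small
    (hq1 : ∀ z : ℂ, 0 < z.im → ‖z‖ < 1 → ‖q z‖ ≤ C * z.im ^ (-1 / 2 : ℝ) * (Real.pi - An z))
    (hq : ∀ z : ℂ, 0 < z.im → 1 < ‖z‖ → ‖q z‖ ≤ C * (z.im ^ (1 / 2 : ℝ) *
      ‖z‖ ^ (-3 / 2 : ℝ) + z.im ^ (-1 / 2 : ℝ) * ‖z‖ ^ (-1 / 2 : ℝ) * An z)) (hs : 0 < s)
    {y : ℝ} (hy : 0 < y) (hy1 : y ≤ 1) : ‖∫ x : ℝ, FF q s (x + y * I)‖ ≤
      y ^ (1 / 4 : ℝ) * ∫ x, dm C x := by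
  rw [← integral_const_mul]
  refine norm_integral_le_of_norm_le ((dm_int C).const_mul _) ?_
  have hfin : ({1, -1, Real.sqrt (1 - y ^ 2), -Real.sqrt (1 - y ^ 2)} : Set ℝ).Countable := by
    exact Set.Finite.countable (Set.toFinite _)
  have hae : ∀ᵐ x : ℝ, x ∉ ({1, -1, Real.sqrt (1 - y ^ 2), -Real.sqrt (1 - y ^ 2)} : Set ℝ) :=
    hfin.ae_notMem volume
  filter_upwards [hae] with x hx
  simp only [Set.mem_insert_iff, Set.mem_singleton_iff, not_or] at hx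
  obtain ⟨x1, x2, x3, x4⟩ := hx
  refine (norm_FF_le hs (by rw [im_mk]; exact hy)).trans ?_
  have hw := wt_pos x
  have hC := abs_nonneg C
  have hpow : 0 < y ^ (1 / 4 : ℝ) := by positivity
  rcases le_or_gt 2 |x| with hx2 | hx2
  · have h1 := q_tail hq (z := (x : ℂ) + y * I) (by rw [im_mk]; exact hy)
      (by rw [re_mk]; exact hx2)
    rw [im_mk, re_mk] at h1
    have h2 : y ^ (1 / 2 : ℝ) ≤ y ^ (1 / 4 : ℝ) :=
      Real.rpow_le_rpow_of_exponent_ge hy hy1 (by norm_num)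
    have h3 : 6 * |C| * wt x ≤ dm C x := by
      unfold dm
      have : 0 ≤ Set.indicator (Set.Icc (-2 : ℝ) 2) (fun x => 1 + (|x - 1| ^ (-(3 / 4) : ℝ) +
          |x + 1| ^ (-(3 / 4) : ℝ))) x := Set.indicator_nonneg (fun _ _ => by positivity) _
      nlinarith
    calc ‖q (x + y * I)‖ ≤ 6 * |C| * y ^ (1 / 2 : ℝ) * wt x := h1
      _ ≤ 6 * |C| * y ^ (1 / 4 : ℝ) * wt x := by gcongr
      _ = y ^ (1 / 4 : ℝ) * (6 * |C| * wt x) := by ring
      _ ≤ y ^ (1 / 4 : ℝ) * dm C x := mul_le_mul_of_nonneg_left h3 hpow.le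
  · have hne : |x| ≠ 1 := by
      intro h
      rcases abs_eq (by norm_num : (0 : ℝ) ≤ 1) |>.1 h with h | h
      · exact x1 h
      · exact x2 h
    have hnz : ‖((x : ℂ) + y * I)‖ ≠ 1 := by
      intro h
      have h2 : x ^ 2 + y ^ 2 = 1 := by
        have h3 : ‖((x : ℂ) + y * I)‖ ^ 2 = x ^ 2 + y ^ 2 := by
          rw [← normSq_eq_norm_sq, normSq_apply, re_mk, im_mk]; ring
        rw [← h3, h]; norm_num
      have h4 : x ^ 2 = Real.sqrt (1 - y ^ 2) ^ 2 := by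
        rw [Real.sq_sqrt]
        · linarith
        · nlinarith
      rcases sq_eq_sq_iff_eq_or_eq_neg.1 h4 with h5 | h5
      · exact x3 h5
      · exact x4 h5
    have h1 := q_small hq1 hq (z := (x : ℂ) + y * I) (by rw [im_mk]; exact hy)
      (by rw [im_mk]; exact hy1) (by rw [re_mk]; exact hne) hnz
    rw [im_mk, re_mk] at h1
    refine h1.trans ?_
    have hmem : x ∈ Set.Icc (-2 : ℝ) 2 := ⟨(abs_lt.1 hx2).1.le, (abs_lt.1 hx2).2.le⟩
    unfold dm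
    rw [Set.indicator_of_mem hmem]
    have : 0 ≤ y ^ (1 / 4 : ℝ) * (6 * |C| * wt x) := by positivity
    nlinarith

/-! ### Green's formula -/

theorem Phi_int (s : ℝ) (hs : 0 < s) {y1 y2 : ℝ} (h1 : 0 < y1)
    (hψ : IntegrableOn ψ (Set.univ ×ℂ Set.Icc y1 y2)) :
    IntegrableOn (Phi ψ s) (Set.univ ×ℂ Set.Icc y1 y2) := by
  have hm : MeasurableSet (Set.univ ×ℂ Set.Icc y1 y2) :=
    (measurable_re MeasurableSet.univ).inter (measurable_im measurableSet_Icc)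
  have h2 : IntegrableOn (fun z => conj (ψ z)) (Set.univ ×ℂ Set.Icc y1 y2) :=
    (conjCLE : ℂ ≃L[ℝ] ℂ).toContinuousLinearMap.integrable_comp hψ
  refine Integrable.bdd_mul (c := y1 ^ (-1 / 2 : ℝ)) h2 ?_ ?_
  · refine Measurable.aestronglyMeasurable ?_
    have e1 : Measurable fun z : ℂ => ((z.im ^ (-1 / 2 : ℝ) : ℝ) : ℂ) :=
      measurable_ofReal.comp (measurable_im.pow_const _)
    have e2 : Measurable fun z : ℂ => ex s z := by
      unfold ex
      fun_prop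
    exact (measurable_const.mul e1).mul e2
  · rw [ae_restrict_iff' hm]
    refine Eventually.of_forall fun z hz => ?_
    have hz2 : z.im ∈ Set.Icc y1 y2 := hz.2
    have hz3 : 0 < z.im := h1.trans_le hz2.1
    rw [norm_mul, norm_mul, norm_neg, norm_I, one_mul, norm_real, norm_ex, Real.norm_eq_abs,
      abs_of_pos (by positivity)]
    have e1 : z.im ^ (-1 / 2 : ℝ) ≤ y1 ^ (-1 / 2 : ℝ) :=
      Real.rpow_le_rpow_of_nonpos h1 hz2.1 (by norm_num)
    have e2 : Real.exp (-(Real.pi * s * z.im)) ≤ 1 := by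
      rw [Real.exp_le_one_iff]
      have := Real.pi_pos
      have : 0 < Real.pi * s * z.im := by positivity
      linarith
    calc z.im ^ (-1 / 2 : ℝ) * Real.exp (-(Real.pi * s * z.im)) ≤ y1 ^ (-1 / 2 : ℝ) * 1 :=
          mul_le_mul e1 e2 (Real.exp_pos _).le (by positivity)
      _ = _ := mul_one _

theorem to_prod {f : ℂ → ℂ} {y1 y2 : ℝ} (hf : IntegrableOn f (Set.univ ×ℂ Set.Icc y1 y2)) :
    Integrable (Function.uncurry fun (x y : ℝ) => f (x + y * I))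
      ((volume : Measure ℝ).prod (volume.restrict (Set.Icc y1 y2))) := by
  rw [← (volume_preserving_equiv_real_prod.symm _).integrableOn_comp_preimage
    (MeasurableEquiv.measurableEmbedding _)] at hf
  have h1 : (volume : Measure ℝ).prod (volume.restrict (Set.Icc y1 y2)) =
      (volume : Measure (ℝ × ℝ)).restrict (Set.univ ×ˢ Set.Icc y1 y2) := by
    rw [Measure.volume_eq_prod, ← Measure.prod_restrict, Measure.restrict_univ]
  rw [h1]
  refine (show Integrable _ _ from hf).congr (Eventually.of_forall fun p => ?_)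
  obtain ⟨x, y⟩ := p
  simp only [Function.comp_apply, measurableEquivRealProd_symm_apply, Function.uncurry]
  rw [mk_eq_add_mul_I]

theorem green_rect (h : ∀ z : ℂ, 0 < z.im → ∃ q' : ℂ →L[ℝ] ℂ, HasFDerivAt q q' z ∧
      q' 1 + I * q' I = -((z.im ^ (-1 / 2 : ℝ) : ℝ) : ℂ) * (starRingEnd ℂ) (ψ z)) (hs : 0 < s)
    {y1 y2 : ℝ} (h1 : 0 < y1) (h12 : y1 < y2)
    (hψ : IntegrableOn ψ (Set.univ ×ℂ Set.Icc y1 y2)) (R : ℝ) :
    (∫ x : ℝ in (-R)..R, FF q s (x + y1 * I)) - (∫ x : ℝ in (-R)..R, FF q s (x + y2 * I)) +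
      I • (∫ y : ℝ in y1..y2, FF q s (((R : ℝ) : ℂ) + y * I)) -
      I • (∫ y : ℝ in y1..y2, FF q s (((-R : ℝ) : ℂ) + y * I)) =
      ∫ x : ℝ in (-R)..R, ∫ y : ℝ in y1..y2, Phi ψ s (x + y * I) := by
  classical
  let F' : ℂ → ℂ →L[ℝ] ℂ := fun z => if hz : 0 < z.im then (dFF h s hz).choose else 0
  have hF : ∀ z : ℂ, 0 < z.im → HasFDerivAt (FF q s) (F' z) z ∧
      I • F' z 1 - F' z I = Phi ψ s z := by
    intro z hz
    simp only [F', dif_pos hz]
    exact (dFF h s hz).choose_spec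
  have hpos : ∀ z : ℂ, z.im ∈ Set.uIcc y1 y2 → 0 < z.im := by
    intro z hz
    rw [Set.uIcc_of_le h12.le] at hz
    exact h1.trans_le hz.1
  have key := integral_boundary_rect_of_continuousOn_of_hasFDerivAt_real (FF q s) F'
    (⟨-R, y1⟩ : ℂ) (⟨R, y2⟩ : ℂ) ?_ ?_ ?_
  · refine key.trans ?_
    refine intervalIntegral.integral_congr fun x _ => ?_
    refine intervalIntegral.integral_congr fun y hy => ?_
    exact (hF _ (hpos _ (by rw [im_mk]; exact hy))).2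
  · intro z hz
    exact (q_contAt h s (hpos z hz.2)).continuousWithinAt
  · intro z hz
    have hz2 := hz.2
    simp only [Set.mem_preimage, min_eq_left h12.le, max_eq_right h12.le, Set.mem_Ioo] at hz2
    exact (hF z (h1.trans hz2.1)).1
  · have h2 := Phi_int s hs h1 hψ
    have h3 : IntegrableOn (Phi ψ s) (Set.uIcc (-R) R ×ℂ Set.uIcc y1 y2) := by
      refine h2.mono_set ?_
      rw [Set.uIcc_of_le h12.le]
      intro z hz
      exact ⟨Set.mem_univ _, hz.2⟩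
    refine h3.congr_fun (fun z hz => ?_) ?_
    · exact (hF z (hpos z hz.2)).2.symm
    · exact (measurable_re measurableSet_uIcc).inter (measurable_im measurableSet_uIcc)

theorem wt_tendsto : Tendsto wt atTop (𝓝 0) := by
  unfold wt
  have h1 : Tendsto (fun x : ℝ => 1 + x ^ 2) atTop atTop :=
    tendsto_atTop_add_const_left _ _ (tendsto_pow_atTop two_ne_zero)
  exact (tendsto_rpow_neg_atTop (by norm_num : (0 : ℝ) < 3 / 4)).comp h1

theorem vert (hq : ∀ z : ℂ, 0 < z.im → 1 < ‖z‖ → ‖q z‖ ≤ C * (z.im ^ (1 / 2 : ℝ) *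
      ‖z‖ ^ (-3 / 2 : ℝ) + z.im ^ (-1 / 2 : ℝ) * ‖z‖ ^ (-1 / 2 : ℝ) * An z)) (hs : 0 < s)
    {y1 y2 : ℝ} (h1 : 0 < y1) (h12 : y1 < y2) (σ : ℝ) (hσ : |σ| = 1) :
    Tendsto (fun R : ℝ => ∫ y : ℝ in y1..y2, FF q s (((σ * R : ℝ) : ℂ) + y * I)) atTop (𝓝 0) := by
  rw [tendsto_zero_iff_norm_tendsto_zero]
  have h3 : Tendsto (fun R => (6 * |C| * y2 ^ (1 / 2 : ℝ) * wt R) * |y2 - y1|) atTop (𝓝 0) := by
    have := (wt_tendsto.const_mul (6 * |C| * y2 ^ (1 / 2 : ℝ))).mul_const (|y2 - y1|)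
    simpa using this
  refine squeeze_zero' (Eventually.of_forall fun R => norm_nonneg _) ?_ h3
  filter_upwards [eventually_ge_atTop 2] with R hR
  refine intervalIntegral.norm_integral_le_of_norm_le_const fun y hy => ?_
  rw [Set.uIoc_of_le h12.le] at hy
  have hy0 : 0 < y := h1.trans hy.1
  have habs : |σ * R| = R := by rw [abs_mul, hσ, one_mul, abs_of_nonneg (by linarith)]
  refine (norm_FF_le hs (by rw [im_mk]; exact hy0)).trans ?_
  have h4 := q_tail hq (z := ((σ * R : ℝ) : ℂ) + y * I) (by rw [im_mk]; exact hy0)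
    (by rw [re_mk, habs]; exact hR)
  rw [im_mk, re_mk] at h4
  have h5 : wt (σ * R) = wt R := by
    unfold wt
    rw [← sq_abs (σ * R), habs]
  rw [h5] at h4
  refine h4.trans ?_
  have h6 : y ^ (1 / 2 : ℝ) ≤ y2 ^ (1 / 2 : ℝ) := Real.rpow_le_rpow hy0.le hy.2 (by norm_num)
  have := (wt_pos R).le
  gcongr

theorem green (h : ∀ z : ℂ, 0 < z.im → ∃ q' : ℂ →L[ℝ] ℂ, HasFDerivAt q q' z ∧
      q' 1 + I * q' I = -((z.im ^ (-1 / 2 : ℝ) : ℝ) : ℂ) * (starRingEnd ℂ) (ψ z))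
    (hq : ∀ z : ℂ, 0 < z.im → 1 < ‖z‖ → ‖q z‖ ≤ C * (z.im ^ (1 / 2 : ℝ) *
      ‖z‖ ^ (-3 / 2 : ℝ) + z.im ^ (-1 / 2 : ℝ) * ‖z‖ ^ (-1 / 2 : ℝ) * An z)) (hs : 0 < s)
    {y1 y2 : ℝ} (h1 : 0 < y1) (h12 : y1 < y2)
    (hψ : IntegrableOn ψ (Set.univ ×ℂ Set.Icc y1 y2)) :
    (∫ x : ℝ, FF q s (x + y1 * I)) - (∫ x : ℝ, FF q s (x + y2 * I)) =
      ∫ y in Set.Icc y1 y2, ∫ x : ℝ, Phi ψ s (x + y * I) := by
  have hP := to_prod (Phi_int s hs h1 hψ)
  have e1 : ∀ x : ℝ, ∫ y : ℝ in y1..y2, Phi ψ s (x + y * I) =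
      ∫ y in Set.Icc y1 y2, Phi ψ s (x + y * I) := by
    intro x
    rw [intervalIntegral.integral_of_le h12.le, integral_Icc_eq_integral_Ioc]
  have hI : Integrable fun x : ℝ => ∫ y in Set.Icc y1 y2, Phi ψ s (x + y * I) :=
    hP.integral_prod_left
  have t0 : Tendsto (fun R : ℝ => ∫ x : ℝ in (-R)..R, ∫ y : ℝ in y1..y2, Phi ψ s (x + y * I)) atTop
      (𝓝 (∫ x : ℝ, ∫ y in Set.Icc y1 y2, Phi ψ s (x + y * I))) := by
    simp_rw [e1]
    exact intervalIntegral_tendsto_integral hI tendsto_neg_atTop_atBot tendsto_id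
  have t1 : Tendsto (fun R : ℝ => ∫ x : ℝ in (-R)..R, FF q s (x + y1 * I)) atTop
      (𝓝 (∫ x : ℝ, FF q s (x + y1 * I))) :=
    intervalIntegral_tendsto_integral (line_int h hq hs h1) tendsto_neg_atTop_atBot tendsto_id
  have t2 : Tendsto (fun R : ℝ => ∫ x : ℝ in (-R)..R, FF q s (x + y2 * I)) atTop
      (𝓝 (∫ x : ℝ, FF q s (x + y2 * I))) :=
    intervalIntegral_tendsto_integral (line_int h hq hs (h1.trans h12)) tendsto_neg_atTop_atBot
      tendsto_id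
  have t3 := (vert hq hs h1 h12 1 (by norm_num)).const_smul I
  have t4 := (vert hq hs h1 h12 (-1) (by norm_num)).const_smul I
  have t5 := ((t1.sub t2).add t3).sub t4
  have e2 : (fun R : ℝ => (∫ x : ℝ in (-R)..R, FF q s (x + y1 * I)) -
      (∫ x : ℝ in (-R)..R, FF q s (x + y2 * I)) +
      I • (∫ y : ℝ in y1..y2, FF q s (((1 * R : ℝ) : ℂ) + y * I)) -
      I • (∫ y : ℝ in y1..y2, FF q s (((-1 * R : ℝ) : ℂ) + y * I))) =
      fun R : ℝ => ∫ x : ℝ in (-R)..R, ∫ y : ℝ in y1..y2, Phi ψ s (x + y * I) := by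
    funext R
    rw [← green_rect h hs h1 h12 hψ R, one_mul, neg_one_mul]
  rw [e2] at t5
  have e3 := tendsto_nhds_unique t5 t0
  rw [smul_zero, add_zero, sub_zero] at e3
  rw [e3]
  exact integral_integral_swap hP

/-- the inner integral -/
theorem inner_int {g : ℝ → ℂ} {B : ℝ} (hg : Continuous g) (hB : ∀ t, ‖g t‖ ≤ B * (1 + |t|))
    (hψ : ∀ z : ℂ, 0 < z.im → ψ z = ∫ t in Set.Ioi (0 : ℝ), g t * exp (I * Real.pi * z * t))
    {y : ℝ} (hy : 0 < y) (hint : Integrable (fun x : ℝ => ψ (x + y * I))) (hs : 0 < s) :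
    ∫ x : ℝ, Phi ψ s (x + y * I) = (-2 * I * conj (g s)) *
      ((y ^ (-1 / 2 : ℝ) * Real.exp (-(2 * Real.pi * y * s)) : ℝ) : ℂ) := by
  have h1 := inversion hg hB hψ hy hint hs
  have h2 : ∫ x : ℝ, Phi ψ s (x + y * I) = (-I * ((y ^ (-1 / 2 : ℝ) : ℝ) : ℂ)) *
      ∫ x : ℝ, conj (ψ (x + y * I)) * ex s (x + y * I) := by
    rw [← integral_const_mul]
    refine integral_congr_ae (Eventually.of_forall fun x => ?_)
    simp only [Phi, im_mk]
    ring
  rw [h2, h1]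
  push_cast
  ring

theorem mainFin : Pool.Agent.W759.StFin := by
  intro g hg B hB ψ q hψ hψint hq C hq1 hq2 s hs
  by_contra hne
  have hgs : 0 < ‖g s‖ := norm_pos_iff.2 hne
  have hpi := Real.pi_pos
  -- the positive kernel
  let k : ℝ → ℝ := fun y => y ^ (-1 / 2 : ℝ) * Real.exp (-(2 * Real.pi * y * s))
  have hkc : ContinuousOn k (Set.Ioi 0) := by
    refine ContinuousOn.mul ?_ (by fun_prop)
    intro y hy
    exact (Real.continuousAt_rpow_const y _ (Or.inl (ne_of_gt hy))).continuousWithinAt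
  have hkpos : ∀ y, 0 < y → 0 < k y := fun y hy => by positivity
  obtain ⟨d, hd, hdk⟩ : ∃ d : ℝ, 0 < d ∧ ∀ y1 y2 : ℝ, 0 < y1 → y1 ≤ 1 → 2 ≤ y2 →
      d ≤ ∫ y in Set.Icc y1 y2, k y := by
    refine ⟨∫ y in Set.Icc (1 : ℝ) 2, k y, ?_, ?_⟩
    · rw [setIntegral_pos_iff_support_of_nonneg_ae]
      · have : Function.support k ∩ Set.Icc (1 : ℝ) 2 = Set.Icc (1 : ℝ) 2 := by
          rw [Set.inter_eq_right]
          intro y hy
          exact (hkpos y (by linarith [hy.1])).ne'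
        rw [this, Real.volume_Icc]
        norm_num
      · rw [EventuallyLE, ae_restrict_iff' measurableSet_Icc]
        exact Eventually.of_forall fun y hy => (hkpos y (by linarith [hy.1])).le
      · exact (hkc.mono fun y hy => by
          have := hy.1
          exact lt_of_lt_of_le zero_lt_one this).integrableOn_Icc
    · intro y1 y2 h1 h2 h3
      refine setIntegral_mono_set ?_ ?_ ?_
      · exact (hkc.mono fun y hy => h1.trans_le hy.1).integrableOn_Icc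
      · rw [EventuallyLE, ae_restrict_iff' measurableSet_Icc]
        exact Eventually.of_forall fun y hy => (hkpos y (h1.trans_le hy.1)).le
      · exact (Set.Icc_subset_Icc h2 h3).eventuallyLE
  -- the identity
  have key : ∀ y1 y2 : ℝ, 0 < y1 → y1 ≤ 1 → 2 ≤ y2 → 2 * ‖g s‖ * d ≤
      ‖∫ x : ℝ, FF q s (x + y1 * I)‖ + ‖∫ x : ℝ, FF q s (x + y2 * I)‖ := by
    intro y1 y2 h1 h2 h3
    have h12 : y1 < y2 := by linarith
    have hi := hψint y1 y2 h1 h12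
    have e1 := green hq hq2 hs h1 h12 hi
    have hae : ∀ᵐ y : ℝ ∂((volume : Measure ℝ).restrict (Set.Icc y1 y2)),
        Integrable (fun x : ℝ => ψ ((x : ℂ) + (y : ℂ) * I)) := (to_prod hi).prod_left_ae
    have e2 : ∫ y in Set.Icc y1 y2, ∫ x : ℝ, Phi ψ s (x + y * I) =
        ∫ y in Set.Icc y1 y2, (-2 * I * conj (g s)) * ((k y : ℝ) : ℂ) := by
      refine integral_congr_ae ?_
      have hmem : ∀ᵐ y : ℝ ∂((volume : Measure ℝ).restrict (Set.Icc y1 y2)), y ∈ Set.Icc y1 y2 :=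
        ae_restrict_mem measurableSet_Icc
      filter_upwards [hae, hmem] with y hy hy2
      exact inner_int hg hB hψ (h1.trans_le hy2.1) hy hs
    rw [e2, integral_const_mul, integral_complex_ofReal] at e1
    have e3 := congrArg norm e1
    have hD := hdk y1 y2 h1 h2 h3
    have e4 : ‖(-2 * I * conj (g s)) * ((∫ y in Set.Icc y1 y2, k y : ℝ) : ℂ)‖ =
        2 * ‖g s‖ * ∫ y in Set.Icc y1 y2, k y := by
      rw [norm_mul, norm_mul, norm_mul, norm_neg, norm_I, RCLike.norm_conj, norm_real,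
        Real.norm_eq_abs, abs_of_pos (hd.trans_le hD)]
      simp
    rw [e4] at e3
    calc 2 * ‖g s‖ * d ≤ 2 * ‖g s‖ * ∫ y in Set.Icc y1 y2, k y :=
          mul_le_mul_of_nonneg_left hD (by positivity)
      _ = _ := e3.symm
      _ ≤ _ := norm_sub_le _ _
  -- the limit
  set K1 : ℝ := ∫ x, dm C x with hK1
  set K2 : ℝ := 20 * |C| * ∫ x, wt x with hK2
  have key2 : ∀ n : ℕ, 2 * ‖g s‖ * d ≤ ((1 : ℝ) / (n + 1)) ^ (1 / 4 : ℝ) * K1 +
      K2 * (((n : ℝ) + 2) ^ (1 / 2 : ℝ) * Real.exp (-(Real.pi * s) * ((n : ℝ) + 2))) := by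
    intro n
    have hn : (0 : ℝ) ≤ n := n.cast_nonneg
    have hn1 : (1 : ℝ) / (n + 1) ≤ 1 := by
      rw [div_le_one (by positivity)]
      linarith
    refine (key (1 / (n + 1)) (n + 2) (by positivity) hn1 (by linarith)).trans ?_
    exact add_le_add (J_small hq1 hq2 hs (by positivity) hn1) (J_large hq2 (by linarith))
  have t1 : Tendsto (fun n : ℕ => ((1 : ℝ) / (n + 1)) ^ (1 / 4 : ℝ) * K1) atTop (𝓝 0) := by
    have h1 : Tendsto (fun n : ℕ => ((1 : ℝ) / (n + 1))) atTop (𝓝 0) :=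
      tendsto_one_div_add_atTop_nhds_zero_nat
    have h2 : Tendsto (fun x : ℝ => x ^ (1 / 4 : ℝ)) (𝓝 0) (𝓝 0) := by
      have := (Real.continuousAt_rpow_const 0 (1 / 4 : ℝ) (Or.inr (by norm_num))).tendsto
      rwa [Real.zero_rpow (by norm_num)] at this
    have := (h2.comp h1).mul_const K1
    simpa using this
  have t2 : Tendsto (fun n : ℕ => K2 * (((n : ℝ) + 2) ^ (1 / 2 : ℝ) *
      Real.exp (-(Real.pi * s) * ((n : ℝ) + 2)))) atTop (𝓝 0) := by
    have h1 := tendsto_rpow_mul_exp_neg_mul_atTop_nhds_zero (1 / 2) (Real.pi * s) (by positivity)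
    have h2 : Tendsto (fun n : ℕ => (n : ℝ) + 2) atTop atTop :=
      tendsto_atTop_add_const_right _ _ tendsto_natCast_atTop_atTop
    have := (h1.comp h2).const_mul K2
    simpa using this
  have t3 := t1.add t2
  have h4 := ge_of_tendsto' t3 key2
  have : 0 < 2 * ‖g s‖ * d := by positivity
  linarith

end Pool.Agent.W345.SQ
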