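import Pool.Agent.W759.Stmts

/-! # Decay of the theta function at the cusp 1 -/

namespace Pool.Agent.W345.SQ
open Complex

theorem theta_inv (τ : ℂ) :
    jacobiTheta τ = 1 / (-I * τ) ^ (1 / 2 : ℂ) * jacobiTheta (-1 / τ) := by
  rw [jacobiTheta_eq_jacobiTheta₂, jacobiTheta_eq_jacobiTheta₂, jacobiTheta₂_functional_equation 0 τ]
  simp

theorem exp_pi_even (k : ℤ) : cexp (Real.pi * I * ((2 * k : ℤ) : ℂ) ^ 2) = 1 := by
  have : (Real.pi * I * ((2 * k : ℤ) : ℂ) ^ 2 : ℂ) = ((2 * k ^ 2 : ℤ) : ℂ) * (2 * Real.pi * I) := by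
    push_cast
    ring
  rw [this, Complex.exp_int_mul_two_pi_mul_I]

theorem exp_pi_odd (k : ℤ) : cexp (Real.pi * I * ((2 * k + 1 : ℤ) : ℂ) ^ 2) = -1 := by
  have : (Real.pi * I * ((2 * k + 1 : ℤ) : ℂ) ^ 2 : ℂ) =
      ((2 * k ^ 2 + 2 * k : ℤ) : ℂ) * (2 * Real.pi * I) + Real.pi * I := by
    push_cast
    ring
  rw [this, Complex.exp_add, Complex.exp_int_mul_two_pi_mul_I, Complex.exp_pi_mul_I, one_mul]

theorem summable_theta {τ : ℂ} (hτ : 0 < τ.im) :
    Summable fun n : ℤ => cexp (Real.pi * I * (n : ℂ) ^ 2 * τ) := by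
  have := (hasSum_jacobiTheta₂_term 0 hτ).summable
  refine this.congr fun n => ?_
  simp [jacobiTheta₂_term]

theorem theta_one_add {τ : ℂ} (hτ : 0 < τ.im) :
    jacobiTheta (1 + τ) = 2 * jacobiTheta (4 * τ) - jacobiTheta τ := by
  have h1 : jacobiTheta (1 + τ) + jacobiTheta τ = 2 * jacobiTheta (4 * τ) := by
    unfold jacobiTheta
    have hτ' : 0 < (1 + τ).im := by simpa using hτ
    rw [← (summable_theta hτ').tsum_add (summable_theta hτ), ← tsum_mul_left]
    have hinj : Function.Injective (fun k : ℤ => 2 * k) := fun a b h => by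
      have : 2 * a = 2 * b := h
      omega
    rw [← hinj.tsum_eq (f := fun n : ℤ => cexp (Real.pi * I * (n : ℂ) ^ 2 * (1 + τ)) +
      cexp (Real.pi * I * (n : ℂ) ^ 2 * τ))]
    · refine tsum_congr fun k => ?_
      rw [mul_add, Complex.exp_add, mul_one, exp_pi_even, one_mul, ← two_mul]
      congr 2
      push_cast
      ring
    · intro n hn
      rcases Int.even_or_odd' n with ⟨k, rfl | rfl⟩
      · exact ⟨k, rfl⟩
      · exfalso
        apply hn
        change cexp (Real.pi * I * ((2 * k + 1 : ℤ) : ℂ) ^ 2 * (1 + τ)) +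
          cexp (Real.pi * I * ((2 * k + 1 : ℤ) : ℂ) ^ 2 * τ) = 0
        rw [mul_add, Complex.exp_add, mul_one, exp_pi_odd]
        ring
  rw [← h1]
  ring

theorem main : Pool.Agent.W759.StTheta := by
  refine ⟨4 / (1 - Real.exp (-Real.pi / 8)), fun τ h => ?_⟩
  have hτ0 : τ ≠ 0 := by
    rintro rfl
    simp at h
    linarith
  have hn : 0 < ‖τ‖ := norm_pos_iff.2 hτ0
  have him : (-τ⁻¹).im = τ.im / normSq τ := by
    rw [neg_im, inv_im]
    ring
  have hns : 0 < normSq τ := normSq_pos.2 hτ0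
  have hτ : 0 < τ.im := by
    by_contra hcon
    push Not at hcon
    have : τ.im / normSq τ ≤ 0 := div_nonpos_of_nonpos_of_nonneg hcon hns.le
    linarith
  have hτ4 : 0 < (4 * τ).im := by
    have : (4 * τ).im = 4 * τ.im := by simp
    rw [this]
    positivity
  set c : ℂ := (-I * τ) ^ (1 / 2 : ℂ) with hc
  have hcn : ‖c‖ = ‖τ‖ ^ (1 / 2 : ℝ) := by
    have h1 : (1 / 2 : ℂ) = ((1 / 2 : ℝ) : ℂ) := by push_cast; ring
    rw [hc, h1, norm_cpow_real]
    simp
  have hc4 : (-I * (4 * τ)) ^ (1 / 2 : ℂ) = 2 * c := by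
    have h1 : -I * (4 * τ) = ((4 : ℝ) : ℂ) * (-I * τ) := by push_cast; ring
    have hw : -I * τ ≠ 0 := mul_ne_zero (neg_ne_zero.2 I_ne_zero) hτ0
    have h4 : (((4 : ℝ) : ℂ)) ≠ 0 := by norm_num
    rw [hc, h1, cpow_def_of_ne_zero (mul_ne_zero h4 hw), cpow_def_of_ne_zero hw,
      Complex.log_ofReal_mul (by norm_num) hw, add_mul, Complex.exp_add]
    congr 1
    have h2 : Real.log 4 = 2 * Real.log 2 := by
      rw [show (4 : ℝ) = 2 ^ 2 by norm_num, Real.log_pow]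
      norm_num
    rw [h2]
    push_cast
    rw [show 2 * (Real.log 2 : ℂ) * (1 / 2) = ((Real.log 2 : ℝ) : ℂ) by ring, ← Complex.ofReal_exp,
      Real.exp_log (by norm_num)]
    norm_num
  have e1 : jacobiTheta (1 + τ) = c⁻¹ * (jacobiTheta (-1 / (4 * τ)) - jacobiTheta (-1 / τ)) := by
    have hc0 : c ≠ 0 := by
      rw [← norm_pos_iff, hcn]
      positivity
    rw [theta_one_add hτ, theta_inv (4 * τ), theta_inv τ, hc4, ← hc]
    field_simp
  set a : ℝ := (-τ⁻¹).im with ha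
  have b1 : (-1 / τ).im = a := by
    rw [ha]
    congr 1
    rw [neg_div, one_div]
  have b4 : (-1 / (4 * τ)).im = a / 4 := by
    have : (-1 / (4 * τ)) = ((1 / 4 : ℝ) : ℂ) * (-τ⁻¹) := by
      push_cast
      field_simp
    rw [this, im_ofReal_mul, ← ha]
    ring
  have t1 := norm_jacobiTheta_sub_one_le (τ := -1 / τ) (by rw [b1]; linarith)
  have t4 := norm_jacobiTheta_sub_one_le (τ := -1 / (4 * τ)) (by rw [b4]; linarith)
  rw [b1] at t1
  rw [b4] at t4
  have hpi := Real.pi_pos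
  have hd : 0 < 1 - Real.exp (-Real.pi / 8) := by
    have : Real.exp (-Real.pi / 8) < 1 := by rw [Real.exp_lt_one_iff]; linarith
    linarith
  set E : ℝ := Real.exp (-(Real.pi / 4) * a) with hE
  have k1 : 2 / (1 - Real.exp (-Real.pi * a)) * Real.exp (-Real.pi * a) ≤
      2 / (1 - Real.exp (-Real.pi / 8)) * E := by
    have m1 : Real.exp (-Real.pi * a) ≤ Real.exp (-Real.pi / 8) :=
      Real.exp_le_exp.2 (by nlinarith)
    have m2 : Real.exp (-Real.pi * a) ≤ E := Real.exp_le_exp.2 (by nlinarith)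
    have m3 : 2 / (1 - Real.exp (-Real.pi * a)) ≤ 2 / (1 - Real.exp (-Real.pi / 8)) :=
      div_le_div_of_nonneg_left (by norm_num) hd (by linarith)
    exact mul_le_mul m3 m2 (Real.exp_pos _).le (by positivity)
  have k4 : 2 / (1 - Real.exp (-Real.pi * (a / 4))) * Real.exp (-Real.pi * (a / 4)) ≤
      2 / (1 - Real.exp (-Real.pi / 8)) * E := by
    have m1 : Real.exp (-Real.pi * (a / 4)) ≤ Real.exp (-Real.pi / 8) :=
      Real.exp_le_exp.2 (by nlinarith)
    have m2 : Real.exp (-Real.pi * (a / 4)) ≤ E := Real.exp_le_exp.2 (by nlinarith)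
    have m3 : 2 / (1 - Real.exp (-Real.pi * (a / 4))) ≤ 2 / (1 - Real.exp (-Real.pi / 8)) :=
      div_le_div_of_nonneg_left (by norm_num) hd (by linarith)
    exact mul_le_mul m3 m2 (Real.exp_pos _).le (by positivity)
  have k5 : ‖jacobiTheta (-1 / (4 * τ)) - jacobiTheta (-1 / τ)‖ ≤
      4 / (1 - Real.exp (-Real.pi / 8)) * E := by
    have h1 : jacobiTheta (-1 / (4 * τ)) - jacobiTheta (-1 / τ) =
        (jacobiTheta (-1 / (4 * τ)) - 1) - (jacobiTheta (-1 / τ) - 1) := by ring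
    rw [h1]
    refine (norm_sub_le _ _).trans ?_
    have h2 : 4 / (1 - Real.exp (-Real.pi / 8)) * E =
        2 / (1 - Real.exp (-Real.pi / 8)) * E + 2 / (1 - Real.exp (-Real.pi / 8)) * E := by ring
    rw [h2]
    exact add_le_add (t4.trans k4) (t1.trans k1)
  rw [e1, norm_mul, norm_inv, hcn]
  have h3 : ‖τ‖ ^ (-1 / 2 : ℝ) = (‖τ‖ ^ (1 / 2 : ℝ))⁻¹ := by
    rw [← Real.rpow_neg hn.le]
    norm_num
  rw [h3]
  calc (‖τ‖ ^ (1 / 2 : ℝ))⁻¹ * ‖jacobiTheta (-1 / (4 * τ)) - jacobiTheta (-1 / τ)‖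
      ≤ (‖τ‖ ^ (1 / 2 : ℝ))⁻¹ * (4 / (1 - Real.exp (-Real.pi / 8)) * E) :=
        mul_le_mul_of_nonneg_left k5 (by positivity)
    _ = 4 / (1 - Real.exp (-Real.pi / 8)) * (‖τ‖ ^ (1 / 2 : ℝ))⁻¹ * E := by ring

end Pool.Agent.W345.SQ
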