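import Pool.Agent.W759.Stmts

/-! # Bounds for the angle and for `q` -/

namespace Pool.Agent.W345.SQ
open Complex Pool.Agent.W759

theorem arg_le_div {w : ℂ} (h1 : 0 < w.re) (h2 : 0 ≤ w.im) : arg w ≤ w.im / w.re := by
  have h3 : 0 ≤ arg w := arg_nonneg_iff.2 h2
  have h4 : |arg w| < Real.pi / 2 := abs_arg_lt_pi_div_two_iff.2 (Or.inl h1)
  rw [← tan_arg]
  rcases h3.eq_or_lt with h5 | h5
  · rw [← h5]; simp
  · exact (Real.lt_tan h5 (abs_lt.1 h4).2).le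

theorem pi_sub_arg {w : ℂ} (h : 0 < w.im) : Real.pi - arg w = arg (-(starRingEnd ℂ) w) := by
  have h1 : arg (-w) = arg w - Real.pi := arg_neg_eq_arg_sub_pi_of_im_pos h
  have h2 : arg (-w) ≠ Real.pi := by
    rw [h1]
    have := arg_le_pi w
    have := Real.pi_pos
    linarith
  have h3 := arg_conj (-w)
  rw [if_neg h2, h1, map_neg] at h3
  rw [h3]
  ring

theorem An_le_pi {z : ℂ} (h : 0 < z.im) : An z ≤ Real.pi := by
  unfold An
  have h1 := arg_le_pi (z - 1)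
  have h2 : 0 ≤ arg (z + 1) := arg_nonneg_iff.2 (by simpa using h.le)
  linarith

theorem An_nonneg {z : ℂ} (h : 0 < z.im) : 0 ≤ An z := by
  have e1 : (z - 1).im = z.im := by simp
  have e2 : (z + 1).im = z.im := by simp
  have h1 : 0 ≤ arg (z - 1) := arg_nonneg_iff.2 (by rw [e1]; exact h.le)
  have h2 : arg (z + 1) ≤ Real.pi := arg_le_pi _
  have h2' : arg (z + 1) ≠ Real.pi := by
    intro h3
    have := (arg_eq_pi_iff.1 h3).2
    rw [e2] at this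
    exact h.ne' this
  by_contra hcon
  push Not at hcon
  have hz1 : z - 1 ≠ 0 := by
    intro h3
    rw [h3] at e1
    simp at e1
    exact h.ne e1
  have hz2 : z + 1 ≠ 0 := by
    intro h3
    rw [h3] at e2
    simp at e2
    exact h.ne e2
  have h3 : Real.sin (An z) < 0 := by
    apply Real.sin_neg_of_neg_of_neg_pi_lt hcon
    unfold An
    have : arg (z + 1) < Real.pi := lt_of_le_of_ne h2 h2'
    linarith
  unfold An at h3
  rw [Real.sin_sub, sin_arg, sin_arg, cos_arg hz1, cos_arg hz2, e1, e2] at h3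
  have n1 : 0 < ‖z - 1‖ := norm_pos_iff.2 hz1
  have n2 : 0 < ‖z + 1‖ := norm_pos_iff.2 hz2
  have e3 : z.im / ‖z - 1‖ * ((z + 1).re / ‖z + 1‖) - (z - 1).re / ‖z - 1‖ * (z.im / ‖z + 1‖) =
      2 * z.im / (‖z - 1‖ * ‖z + 1‖) := by
    simp only [add_re, sub_re, one_re]
    field_simp
    ring
  rw [e3] at h3
  have : 0 < 2 * z.im / (‖z - 1‖ * ‖z + 1‖) := by positivity
  linarith

theorem An_outer {z : ℂ} (h : 0 < z.im) (hx : 1 < |z.re|) : An z ≤ z.im / (|z.re| - 1) := by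
  have e1 : (z - 1).im = z.im := by simp
  have e2 : (z + 1).im = z.im := by simp
  rcases le_or_gt 0 z.re with h0 | h0
  · rw [abs_of_nonneg h0] at hx ⊢
    have h1 := arg_le_div (w := z - 1) (by simpa using hx) (by rw [e1]; exact h.le)
    have h2 : 0 ≤ arg (z + 1) := arg_nonneg_iff.2 (by rw [e2]; exact h.le)
    have e3 : (z - 1).re = z.re - 1 := by simp
    rw [e1, e3] at h1
    unfold An
    linarith
  · rw [abs_of_neg h0] at hx ⊢
    have h2 := arg_le_pi (z - 1)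
    have h3 := pi_sub_arg (w := z + 1) (by rw [e2]; exact h)
    have h4 := arg_le_div (w := -(starRingEnd ℂ) (z + 1))
      (by simp only [neg_re, conj_re, add_re, one_re]; linarith)
      (by simp only [neg_im, conj_im, neg_neg, e2]; exact h.le)
    have e4 : (-(starRingEnd ℂ) (z + 1)).im = z.im := by
      simp only [neg_im, conj_im, neg_neg, e2]
    have e5 : (-(starRingEnd ℂ) (z + 1)).re = -z.re - 1 := by
      simp only [neg_re, conj_re, add_re, one_re]; ring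
    rw [e4, e5] at h4
    unfold An
    linarith

theorem An_inner {z : ℂ} (h : 0 < z.im) (hx : |z.re| < 1) :
    Real.pi - An z ≤ 2 * z.im / (1 - |z.re|) := by
  have e1 : (z - 1).im = z.im := by simp
  have e2 : (z + 1).im = z.im := by simp
  obtain ⟨hx1, hx2⟩ := abs_lt.1 hx
  have h1 := arg_le_div (w := z + 1) (by simp only [add_re, one_re]; linarith)
    (by rw [e2]; exact h.le)
  have h3 := pi_sub_arg (w := z - 1) (by rw [e1]; exact h)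
  have h4 := arg_le_div (w := -(starRingEnd ℂ) (z - 1))
    (by simp only [neg_re, conj_re, sub_re, one_re]; linarith)
    (by simp only [neg_im, conj_im, neg_neg, e1]; exact h.le)
  have e4 : (-(starRingEnd ℂ) (z - 1)).im = z.im := by
    simp only [neg_im, conj_im, neg_neg, e1]
  have e5 : (-(starRingEnd ℂ) (z - 1)).re = 1 - z.re := by
    simp only [neg_re, conj_re, sub_re, one_re]; ring
  have e6 : (z + 1).re = z.re + 1 := by simp
  rw [e4, e5] at h4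
  rw [e2, e6] at h1
  have hd : 0 < 1 - |z.re| := by linarith
  have b1 : z.im / (1 - z.re) ≤ z.im / (1 - |z.re|) :=
    div_le_div_of_nonneg_left h.le hd (by linarith [le_abs_self z.re])
  have b2 : z.im / (z.re + 1) ≤ z.im / (1 - |z.re|) :=
    div_le_div_of_nonneg_left h.le hd (by linarith [neg_abs_le z.re])
  have e7 : 2 * z.im / (1 - |z.re|) = z.im / (1 - |z.re|) + z.im / (1 - |z.re|) := by ring
  unfold An
  rw [e7]
  linarith

/-- interpolation -/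
theorem interp {a X : ℝ} (h1 : a ≤ 8) (h2 : a ≤ X) (hX : 0 < X) : a ≤ 2 * X ^ (3 / 4 : ℝ) := by
  rcases le_or_gt a 0 with h | h
  · exact h.trans (by positivity)
  · have e1 : a = a ^ (1 / 4 : ℝ) * a ^ (3 / 4 : ℝ) := by
      rw [← Real.rpow_add h]
      norm_num
    have h3 : a ^ (1 / 4 : ℝ) ≤ 2 := by
      calc a ^ (1 / 4 : ℝ) ≤ (16 : ℝ) ^ (1 / 4 : ℝ) :=
            Real.rpow_le_rpow h.le (by linarith) (by norm_num)
        _ = 2 := by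
            rw [show (16 : ℝ) = 2 ^ (4 : ℝ) by norm_num, ← Real.rpow_mul (by norm_num)]
            norm_num
    have h4 : a ^ (3 / 4 : ℝ) ≤ X ^ (3 / 4 : ℝ) := Real.rpow_le_rpow h.le h2 (by norm_num)
    calc a = a ^ (1 / 4 : ℝ) * a ^ (3 / 4 : ℝ) := e1
      _ ≤ 2 * X ^ (3 / 4 : ℝ) := mul_le_mul h3 h4 (by positivity) (by norm_num)

/-- the weight -/
noncomputable def wt (x : ℝ) : ℝ := (1 + x ^ 2) ^ (-(3 / 4) : ℝ)

theorem wt_pos (x : ℝ) : 0 < wt x := by unfold wt; positivity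

theorem wt_tail {x : ℝ} (hx : 2 ≤ |x|) : |x| ^ (-(3 / 2) : ℝ) ≤ 2 * wt x := by
  have hx0 : 0 < |x| := by linarith
  have h1 : 1 + x ^ 2 ≤ 5 / 4 * |x| ^ 2 := by
    rw [sq_abs]
    nlinarith [sq_abs x, mul_le_mul hx hx (by norm_num) hx0.le]
  have h2 : (5 / 4 * |x| ^ 2) ^ (-(3 / 4) : ℝ) ≤ wt x := by
    unfold wt
    exact Real.rpow_le_rpow_of_nonpos (by positivity) h1 (by norm_num)
  have h3 : (5 / 4 * |x| ^ 2) ^ (-(3 / 4) : ℝ) = (5 / 4) ^ (-(3 / 4) : ℝ) * |x| ^ (-(3 / 2) : ℝ) := by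
    rw [Real.mul_rpow (by norm_num) (by positivity)]
    congr 1
    rw [← Real.rpow_natCast, ← Real.rpow_mul hx0.le]
    norm_num
  have h4 : (1 / 2 : ℝ) ≤ (5 / 4) ^ (-(3 / 4) : ℝ) := by
    have : (2 : ℝ) ^ (-1 : ℝ) ≤ (5 / 4) ^ (-(3 / 4) : ℝ) := by
      calc (2 : ℝ) ^ (-1 : ℝ) ≤ (2 : ℝ) ^ (-(3 / 4) : ℝ) :=
            Real.rpow_le_rpow_of_exponent_le (by norm_num) (by norm_num)
        _ ≤ (5 / 4) ^ (-(3 / 4) : ℝ) :=
            Real.rpow_le_rpow_of_nonpos (by norm_num) (by norm_num) (by norm_num)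
    rw [Real.rpow_neg_one] at this
    linarith
  rw [h3] at h2
  have h5 : 0 < |x| ^ (-(3 / 2) : ℝ) := by positivity
  nlinarith

section
variable {q : ℂ → ℂ} {C : ℝ}

/-- the bound outside the unit disc, with `|C|` -/
theorem q_out (hq : ∀ z : ℂ, 0 < z.im → 1 < ‖z‖ → ‖q z‖ ≤ C * (z.im ^ (1 / 2 : ℝ) *
      ‖z‖ ^ (-3 / 2 : ℝ) + z.im ^ (-1 / 2 : ℝ) * ‖z‖ ^ (-1 / 2 : ℝ) * An z))
    {z : ℂ} (h : 0 < z.im) (hz : 1 < ‖z‖) : ‖q z‖ ≤ |C| * (z.im ^ (1 / 2 : ℝ) *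
      ‖z‖ ^ (-3 / 2 : ℝ) + z.im ^ (-1 / 2 : ℝ) * ‖z‖ ^ (-1 / 2 : ℝ) * An z) := by
  refine (hq z h hz).trans (mul_le_mul_of_nonneg_right (le_abs_self C) ?_)
  have := An_nonneg h
  positivity

theorem q_in (hq : ∀ z : ℂ, 0 < z.im → ‖z‖ < 1 → ‖q z‖ ≤ C * z.im ^ (-1 / 2 : ℝ) *
      (Real.pi - An z)) {z : ℂ} (h : 0 < z.im) (hz : ‖z‖ < 1) :
    ‖q z‖ ≤ |C| * z.im ^ (-1 / 2 : ℝ) * (Real.pi - An z) := by
  refine (hq z h hz).trans ?_
  have h1 : 0 ≤ Real.pi - An z := by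
    have := An_le_pi h
    linarith
  refine mul_le_mul_of_nonneg_right ?_ h1
  exact mul_le_mul_of_nonneg_right (le_abs_self C) (by positivity)

/-- tail bound -/
theorem q_tail (hq : ∀ z : ℂ, 0 < z.im → 1 < ‖z‖ → ‖q z‖ ≤ C * (z.im ^ (1 / 2 : ℝ) *
      ‖z‖ ^ (-3 / 2 : ℝ) + z.im ^ (-1 / 2 : ℝ) * ‖z‖ ^ (-1 / 2 : ℝ) * An z))
    {z : ℂ} (h : 0 < z.im) (hx : 2 ≤ |z.re|) :
    ‖q z‖ ≤ 6 * |C| * z.im ^ (1 / 2 : ℝ) * wt z.re := by
  have hxz : |z.re| ≤ ‖z‖ := abs_re_le_norm z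
  have hx0 : 0 < |z.re| := by linarith
  have hz : 1 < ‖z‖ := by linarith
  have h1 := q_out hq h hz
  have h2 := An_outer h (by linarith)
  have e1 : ‖z‖ ^ (-3 / 2 : ℝ) ≤ |z.re| ^ (-(3 / 2) : ℝ) := by
    rw [show (-3 / 2 : ℝ) = -(3 / 2) by norm_num]
    exact Real.rpow_le_rpow_of_nonpos hx0 hxz (by norm_num)
  have e2 : ‖z‖ ^ (-1 / 2 : ℝ) ≤ |z.re| ^ (-(1 / 2) : ℝ) := by
    rw [show (-1 / 2 : ℝ) = -(1 / 2) by norm_num]
    exact Real.rpow_le_rpow_of_nonpos hx0 hxz (by norm_num)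
  have e3 : An z ≤ 2 * z.im * |z.re| ^ (-1 : ℝ) := by
    refine h2.trans ?_
    rw [Real.rpow_neg_one, div_le_iff₀ (by linarith)]
    have : 2 * z.im * |z.re|⁻¹ * (|z.re| - 1) = 2 * z.im * ((|z.re| - 1) / |z.re|) := by ring
    rw [this]
    have h3 : 1 / 2 ≤ (|z.re| - 1) / |z.re| := by
      rw [le_div_iff₀ hx0]
      linarith
    nlinarith
  have e4 : z.im ^ (-1 / 2 : ℝ) * ‖z‖ ^ (-1 / 2 : ℝ) * An z ≤
      2 * z.im ^ (1 / 2 : ℝ) * |z.re| ^ (-(3 / 2) : ℝ) := by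
    calc z.im ^ (-1 / 2 : ℝ) * ‖z‖ ^ (-1 / 2 : ℝ) * An z
        ≤ z.im ^ (-1 / 2 : ℝ) * |z.re| ^ (-(1 / 2) : ℝ) * (2 * z.im * |z.re| ^ (-1 : ℝ)) := by
          refine mul_le_mul ?_ e3 (An_nonneg h) (by positivity)
          exact mul_le_mul_of_nonneg_left e2 (by positivity)
      _ = 2 * (z.im ^ (-1 / 2 : ℝ) * z.im) * (|z.re| ^ (-(1 / 2) : ℝ) * |z.re| ^ (-1 : ℝ)) := by ring
      _ = 2 * z.im ^ (1 / 2 : ℝ) * |z.re| ^ (-(3 / 2) : ℝ) := by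
          rw [← Real.rpow_add hx0, ← Real.rpow_add_one h.ne']
          norm_num
  have e5 := wt_tail hx
  have e6 : 0 < z.im ^ (1 / 2 : ℝ) := by positivity
  calc ‖q z‖ ≤ |C| * (z.im ^ (1 / 2 : ℝ) * |z.re| ^ (-(3 / 2) : ℝ) +
        2 * z.im ^ (1 / 2 : ℝ) * |z.re| ^ (-(3 / 2) : ℝ)) := by
        refine h1.trans (mul_le_mul_of_nonneg_left ?_ (abs_nonneg C))
        exact add_le_add (mul_le_mul_of_nonneg_left e1 e6.le) e4
    _ = |C| * (3 * z.im ^ (1 / 2 : ℝ) * |z.re| ^ (-(3 / 2) : ℝ)) := by ring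
    _ ≤ |C| * (3 * z.im ^ (1 / 2 : ℝ) * (2 * wt z.re)) :=
        mul_le_mul_of_nonneg_left (mul_le_mul_of_nonneg_left e5 (by positivity)) (abs_nonneg C)
    _ = 6 * |C| * z.im ^ (1 / 2 : ℝ) * wt z.re := by ring

theorem wt_ge {x : ℝ} (hx : |x| ≤ 2) : 1 / 4 ≤ wt x := by
  have h1 : 1 + x ^ 2 ≤ 5 := by nlinarith [sq_abs x, abs_nonneg x]
  have h2 : (5 : ℝ) ^ (-(3 / 4) : ℝ) ≤ wt x :=
    Real.rpow_le_rpow_of_nonpos (by positivity) h1 (by norm_num)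
  have h3 : (1 / 4 : ℝ) ≤ 5 ^ (-(3 / 4) : ℝ) := by
    rw [Real.rpow_neg (by norm_num), one_div]
    apply inv_anti₀ (by positivity)
    have h4 : ((5 : ℝ) ^ (3 / 4 : ℝ)) ^ (4 : ℕ) ≤ 4 ^ (4 : ℕ) := by
      rw [← Real.rpow_natCast, ← Real.rpow_mul (by norm_num)]
      norm_num
    exact le_of_pow_le_pow_left₀ (by norm_num) (by norm_num) h4
  linarith

/-- bound for large imaginary part -/
theorem q_large (hq : ∀ z : ℂ, 0 < z.im → 1 < ‖z‖ → ‖q z‖ ≤ C * (z.im ^ (1 / 2 : ℝ) *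
      ‖z‖ ^ (-3 / 2 : ℝ) + z.im ^ (-1 / 2 : ℝ) * ‖z‖ ^ (-1 / 2 : ℝ) * An z))
    {z : ℂ} (h : 1 < z.im) : ‖q z‖ ≤ 20 * |C| * z.im ^ (1 / 2 : ℝ) * wt z.re := by
  have h0 : 0 < z.im := by linarith
  have hC := abs_nonneg C
  have hw := wt_pos z.re
  rcases le_or_gt 2 |z.re| with hx | hx
  · refine (q_tail hq h0 hx).trans ?_
    have : 0 ≤ |C| * z.im ^ (1 / 2 : ℝ) * wt z.re := by positivity
    nlinarith
  · have hz : 1 < ‖z‖ := by
      have := abs_im_le_norm z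
      rw [abs_of_pos h0] at this
      linarith
    have h1 := q_out hq h0 hz
    have e1 : ‖z‖ ^ (-3 / 2 : ℝ) ≤ 1 := Real.rpow_le_one_of_one_le_of_nonpos hz.le (by norm_num)
    have e2 : ‖z‖ ^ (-1 / 2 : ℝ) ≤ 1 := Real.rpow_le_one_of_one_le_of_nonpos hz.le (by norm_num)
    have e3 : z.im ^ (-1 / 2 : ℝ) ≤ z.im ^ (1 / 2 : ℝ) :=
      Real.rpow_le_rpow_of_exponent_le h.le (by norm_num)
    have e4 : An z ≤ 4 := (An_le_pi h0).trans (Real.pi_le_four)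
    have e5 := wt_ge hx.le
    have e6 : 0 < z.im ^ (1 / 2 : ℝ) := by positivity
    have e7 : z.im ^ (-1 / 2 : ℝ) * ‖z‖ ^ (-1 / 2 : ℝ) * An z ≤ z.im ^ (1 / 2 : ℝ) * 1 * 4 := by
      refine mul_le_mul ?_ e4 (An_nonneg h0) (by positivity)
      exact mul_le_mul e3 e2 (by positivity) (by positivity)
    calc ‖q z‖ ≤ |C| * (z.im ^ (1 / 2 : ℝ) * 1 + z.im ^ (1 / 2 : ℝ) * 1 * 4) := by
          refine h1.trans (mul_le_mul_of_nonneg_left ?_ hC)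
          exact add_le_add (mul_le_mul_of_nonneg_left e1 e6.le) e7
      _ = 20 * |C| * z.im ^ (1 / 2 : ℝ) * (1 / 4) := by ring
      _ ≤ 20 * |C| * z.im ^ (1 / 2 : ℝ) * wt z.re :=
          mul_le_mul_of_nonneg_left e5 (by positivity)

/-- bound for small imaginary part -/
theorem q_small
    (hq1 : ∀ z : ℂ, 0 < z.im → ‖z‖ < 1 → ‖q z‖ ≤ C * z.im ^ (-1 / 2 : ℝ) * (Real.pi - An z))
    (hq : ∀ z : ℂ, 0 < z.im → 1 < ‖z‖ → ‖q z‖ ≤ C * (z.im ^ (1 / 2 : ℝ) *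
      ‖z‖ ^ (-3 / 2 : ℝ) + z.im ^ (-1 / 2 : ℝ) * ‖z‖ ^ (-1 / 2 : ℝ) * An z))
    {z : ℂ} (h : 0 < z.im) (h1 : z.im ≤ 1) (hx : |z.re| ≠ 1) (hz : ‖z‖ ≠ 1) :
    ‖q z‖ ≤ 4 * |C| * z.im ^ (1 / 4 : ℝ) *
      (1 + (|z.re - 1| ^ (-(3 / 4) : ℝ) + |z.re + 1| ^ (-(3 / 4) : ℝ))) := by
  have hC := abs_nonneg C
  set d : ℝ := abs (1 - |z.re|) with hd
  have hd0 : 0 < d := abs_pos.2 (sub_ne_zero.2 hx.symm)
  have hdD : d ^ (-(3 / 4) : ℝ) ≤ |z.re - 1| ^ (-(3 / 4) : ℝ) + |z.re + 1| ^ (-(3 / 4) : ℝ) := by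
    rcases le_or_gt 0 z.re with h0 | h0
    · have : d = |z.re - 1| := by rw [hd, abs_of_nonneg h0, abs_sub_comm]
      rw [this]
      have : 0 ≤ |z.re + 1| ^ (-(3 / 4) : ℝ) := by positivity
      linarith
    · have : d = |z.re + 1| := by rw [hd, abs_of_neg h0]; congr 1; ring
      rw [this]
      have : 0 ≤ |z.re - 1| ^ (-(3 / 4) : ℝ) := by positivity
      linarith
  -- it is enough to prove the bound with `d`
  suffices hs : ‖q z‖ ≤ 4 * |C| * z.im ^ (1 / 4 : ℝ) * (1 + d ^ (-(3 / 4) : ℝ)) by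
    refine hs.trans (mul_le_mul_of_nonneg_left ?_ (by positivity))
    linarith
  have hy14 : 0 < z.im ^ (1 / 4 : ℝ) := by positivity
  have hyy : z.im ^ (-1 / 2 : ℝ) * z.im ^ (3 / 4 : ℝ) = z.im ^ (1 / 4 : ℝ) := by
    rw [← Real.rpow_add h]; norm_num
  have hpi4 := Real.pi_le_four
  rcases lt_or_gt_of_ne hz with hz1 | hz1
  · -- inside the disc
    have hx1 : |z.re| < 1 := (abs_re_le_norm z).trans_lt hz1
    have hdd : d = 1 - |z.re| := by rw [hd, abs_of_pos]; linarith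
    have b1 := q_in hq1 h hz1
    have b2 := An_inner h hx1
    rw [← hdd] at b2
    have b3 : Real.pi - An z ≤ 8 := by
      have := An_nonneg h
      linarith
    have b4 := interp b3 b2 (by positivity)
    have b5 : (2 * z.im / d) ^ (3 / 4 : ℝ) ≤ 2 * z.im ^ (3 / 4 : ℝ) * d ^ (-(3 / 4) : ℝ) := by
      rw [Real.div_rpow (by positivity) hd0.le, Real.mul_rpow (by norm_num) h.le,
        Real.rpow_neg hd0.le, div_eq_mul_inv]
      have : (2 : ℝ) ^ (3 / 4 : ℝ) ≤ 2 := by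
        calc (2 : ℝ) ^ (3 / 4 : ℝ) ≤ 2 ^ (1 : ℝ) :=
              Real.rpow_le_rpow_of_exponent_le (by norm_num) (by norm_num)
          _ = 2 := Real.rpow_one 2
      gcongr
    calc ‖q z‖ ≤ |C| * z.im ^ (-1 / 2 : ℝ) * (2 * (2 * z.im ^ (3 / 4 : ℝ) * d ^ (-(3 / 4) : ℝ))) := by
          refine b1.trans (mul_le_mul_of_nonneg_left ?_ (by positivity))
          exact b4.trans (mul_le_mul_of_nonneg_left b5 (by norm_num))
      _ = 4 * |C| * (z.im ^ (-1 / 2 : ℝ) * z.im ^ (3 / 4 : ℝ)) * d ^ (-(3 / 4) : ℝ) := by ring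
      _ = 4 * |C| * z.im ^ (1 / 4 : ℝ) * d ^ (-(3 / 4) : ℝ) := by rw [hyy]
      _ ≤ 4 * |C| * z.im ^ (1 / 4 : ℝ) * (1 + d ^ (-(3 / 4) : ℝ)) := by
          refine mul_le_mul_of_nonneg_left ?_ (by positivity)
          linarith
  · -- outside the disc
    have b1 := q_out hq h hz1
    have e1 : ‖z‖ ^ (-3 / 2 : ℝ) ≤ 1 := Real.rpow_le_one_of_one_le_of_nonpos hz1.le (by norm_num)
    have e2 : ‖z‖ ^ (-1 / 2 : ℝ) ≤ 1 := Real.rpow_le_one_of_one_le_of_nonpos hz1.le (by norm_num)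
    have e3 : z.im ^ (1 / 2 : ℝ) ≤ z.im ^ (1 / 4 : ℝ) :=
      Real.rpow_le_rpow_of_exponent_ge h h1 (by norm_num)
    have e4 : z.im ^ (1 / 2 : ℝ) * ‖z‖ ^ (-3 / 2 : ℝ) ≤ z.im ^ (1 / 4 : ℝ) := by
      calc z.im ^ (1 / 2 : ℝ) * ‖z‖ ^ (-3 / 2 : ℝ) ≤ z.im ^ (1 / 4 : ℝ) * 1 :=
            mul_le_mul e3 e1 (by positivity) (by positivity)
        _ = _ := mul_one _
    have e5 : z.im ^ (-1 / 2 : ℝ) * ‖z‖ ^ (-1 / 2 : ℝ) * An z ≤
        4 * z.im ^ (1 / 4 : ℝ) * d ^ (-(3 / 4) : ℝ) := by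
      have e6 : z.im ^ (-1 / 2 : ℝ) * ‖z‖ ^ (-1 / 2 : ℝ) ≤ z.im ^ (-1 / 2 : ℝ) := by
        calc z.im ^ (-1 / 2 : ℝ) * ‖z‖ ^ (-1 / 2 : ℝ) ≤ z.im ^ (-1 / 2 : ℝ) * 1 :=
              mul_le_mul_of_nonneg_left e2 (by positivity)
          _ = _ := mul_one _
      rcases lt_or_gt_of_ne hx with hx1 | hx1
      · -- `|x| < 1`
        have hdd : d = 1 - |z.re| := by rw [hd, abs_of_pos]; linarith
        have hd1 : d ≤ 1 := by rw [hdd]; linarith [abs_nonneg z.re]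
        have hy2 : d ≤ z.im ^ 2 := by
          have h2 : 1 < z.re ^ 2 + z.im ^ 2 := by
            have h3 : ‖z‖ ^ 2 = z.re ^ 2 + z.im ^ 2 := by
              rw [← normSq_eq_norm_sq, normSq_apply]; ring
            rw [← h3]
            nlinarith
          have h4 : z.re ^ 2 ≤ |z.re| := by
            rw [← sq_abs]
            nlinarith [abs_nonneg z.re]
          rw [hdd]
          linarith
        have e7 : z.im ^ (-(3 / 4) : ℝ) ≤ d ^ (-(3 / 4) : ℝ) := by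
          calc z.im ^ (-(3 / 4) : ℝ) = (z.im ^ 2) ^ (-(3 / 8) : ℝ) := by
                rw [← Real.rpow_natCast, ← Real.rpow_mul h.le]; norm_num
            _ ≤ d ^ (-(3 / 8) : ℝ) := Real.rpow_le_rpow_of_nonpos hd0 hy2 (by norm_num)
            _ ≤ d ^ (-(3 / 4) : ℝ) := Real.rpow_le_rpow_of_exponent_ge hd0 hd1 (by norm_num)
        have e8 : z.im ^ (-1 / 2 : ℝ) = z.im ^ (1 / 4 : ℝ) * z.im ^ (-(3 / 4) : ℝ) := by
          rw [← Real.rpow_add h]; norm_num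
        calc z.im ^ (-1 / 2 : ℝ) * ‖z‖ ^ (-1 / 2 : ℝ) * An z ≤ z.im ^ (-1 / 2 : ℝ) * 4 :=
              mul_le_mul e6 ((An_le_pi h).trans hpi4) (An_nonneg h) (by positivity)
          _ = 4 * z.im ^ (1 / 4 : ℝ) * z.im ^ (-(3 / 4) : ℝ) := by rw [e8]; ring
          _ ≤ 4 * z.im ^ (1 / 4 : ℝ) * d ^ (-(3 / 4) : ℝ) :=
              mul_le_mul_of_nonneg_left e7 (by positivity)
      · -- `|x| > 1`
        have hdd : d = |z.re| - 1 := by rw [hd, abs_of_neg (by linarith)]; ring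
        have b2 := An_outer h hx1
        rw [← hdd] at b2
        have b3 : An z ≤ 8 := by
          have := An_le_pi h
          linarith
        have b4 := interp b3 b2 (by positivity)
        have b5 : (z.im / d) ^ (3 / 4 : ℝ) = z.im ^ (3 / 4 : ℝ) * d ^ (-(3 / 4) : ℝ) := by
          rw [Real.div_rpow h.le hd0.le, Real.rpow_neg hd0.le, div_eq_mul_inv]
        rw [b5] at b4
        calc z.im ^ (-1 / 2 : ℝ) * ‖z‖ ^ (-1 / 2 : ℝ) * An z
            ≤ z.im ^ (-1 / 2 : ℝ) * (2 * (z.im ^ (3 / 4 : ℝ) * d ^ (-(3 / 4) : ℝ))) :=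
              mul_le_mul e6 b4 (An_nonneg h) (by positivity)
          _ = 2 * (z.im ^ (-1 / 2 : ℝ) * z.im ^ (3 / 4 : ℝ)) * d ^ (-(3 / 4) : ℝ) := by ring
          _ = 2 * z.im ^ (1 / 4 : ℝ) * d ^ (-(3 / 4) : ℝ) := by rw [hyy]
          _ ≤ 4 * z.im ^ (1 / 4 : ℝ) * d ^ (-(3 / 4) : ℝ) := by
              have : 0 ≤ z.im ^ (1 / 4 : ℝ) * d ^ (-(3 / 4) : ℝ) := by positivity
              nlinarith
    calc ‖q z‖ ≤ |C| * (z.im ^ (1 / 4 : ℝ) + 4 * z.im ^ (1 / 4 : ℝ) * d ^ (-(3 / 4) : ℝ)) :=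
          b1.trans (mul_le_mul_of_nonneg_left (add_le_add e4 e5) hC)
      _ ≤ 4 * |C| * z.im ^ (1 / 4 : ℝ) * (1 + d ^ (-(3 / 4) : ℝ)) := by
          have : 0 ≤ |C| * z.im ^ (1 / 4 : ℝ) := by positivity
          nlinarith

end

end Pool.Agent.W345.SQ
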