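import Pool.Agent.W345.SQ.AnB

/-! # The Fourier inversion step and integrability -/

namespace Pool.Agent.W345.SQ
open Complex Pool.Agent.W759 MeasureTheory Filter Topology
open scoped FourierTransform ComplexConjugate

/-- the exponential -/
noncomputable def ex (s : ℝ) (z : ℂ) : ℂ := exp (I * Real.pi * z * s)

theorem norm_ex (s : ℝ) (z : ℂ) : ‖ex s z‖ = Real.exp (-(Real.pi * s * z.im)) := by
  unfold ex
  rw [norm_exp]
  congr 1
  have : I * Real.pi * z * s = ((Real.pi * s : ℝ) : ℂ) * (z * I) := by push_cast; ring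
  rw [this, re_ofReal_mul, mul_I_re]
  ring

theorem ex_mk (s x y : ℝ) : ex s (x + y * I) =
    exp (((Real.pi * x * s : ℝ) : ℂ) * I) * (Real.exp (-(Real.pi * s * y)) : ℝ) := by
  unfold ex
  rw [ofReal_exp, ← Complex.exp_add]
  congr 1
  push_cast
  linear_combination (Real.pi * y * s : ℂ) * I_mul_I

section fourier
variable {g : ℝ → ℂ} {B : ℝ}

/-- the function on the half line -/
noncomputable def GG (g : ℝ → ℂ) (y : ℝ) : ℝ → ℂ := Set.indicator (Set.Ioi 0)
  (fun t => conj (g t) * (Real.exp (-(Real.pi * y * t)) : ℝ))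

theorem one_add_le_exp {c t : ℝ} (hc : 0 < c) (ht : 0 ≤ t) :
    1 + t ≤ (1 + 1 / c) * Real.exp (c * t) := by
  have h1 : c * t + 1 ≤ Real.exp (c * t) := Real.add_one_le_exp _
  have h2 : 1 ≤ Real.exp (c * t) := Real.one_le_exp (by positivity)
  have h3 : t ≤ 1 / c * Real.exp (c * t) := by
    rw [one_div, inv_mul_eq_div, le_div_iff₀ hc]
    nlinarith
  linarith

theorem GG_int (hg : Continuous g) (hB : ∀ t, ‖g t‖ ≤ B * (1 + |t|)) {y : ℝ} (hy : 0 < y) :
    Integrable (GG g y) := by
  unfold GG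
  rw [integrable_indicator_iff measurableSet_Ioi]
  set c : ℝ := Real.pi * y / 2 with hc
  have hc0 : 0 < c := by have := Real.pi_pos; positivity
  have h1 : IntegrableOn (fun t : ℝ => |B| * (1 + 1 / c) * Real.exp (-(c * t))) (Set.Ioi 0) := by
    have := (exp_neg_integrableOn_Ioi 0 hc0).const_mul (|B| * (1 + 1 / c))
    unfold IntegrableOn
    simpa only [neg_mul] using this
  refine Integrable.mono' h1 ?_ ?_
  · refine (Continuous.aestronglyMeasurable ?_)
    exact (Complex.continuous_conj.comp hg).mul (continuous_ofReal.comp (by fun_prop))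
  · rw [ae_restrict_iff' measurableSet_Ioi]
    refine Eventually.of_forall fun t ht => ?_
    have ht0 : 0 < t := ht
    rw [norm_mul, RCLike.norm_conj, norm_real, Real.norm_eq_abs, abs_of_pos (Real.exp_pos _)]
    have h2 := hB t
    rw [abs_of_pos ht0] at h2
    have h3 := one_add_le_exp hc0 ht0.le
    have h4 : ‖g t‖ ≤ |B| * ((1 + 1 / c) * Real.exp (c * t)) :=
      h2.trans ((mul_le_mul_of_nonneg_right (le_abs_self B) (by positivity)).trans
        (mul_le_mul_of_nonneg_left h3 (abs_nonneg B)))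
    have h5 : Real.exp (c * t) * Real.exp (-(Real.pi * y * t)) = Real.exp (-(c * t)) := by
      rw [← Real.exp_add]
      congr 1
      rw [hc]
      ring
    calc ‖g t‖ * Real.exp (-(Real.pi * y * t))
        ≤ |B| * ((1 + 1 / c) * Real.exp (c * t)) * Real.exp (-(Real.pi * y * t)) :=
          mul_le_mul_of_nonneg_right h4 (Real.exp_pos _).le
      _ = |B| * (1 + 1 / c) * (Real.exp (c * t) * Real.exp (-(Real.pi * y * t))) := by ring
      _ = _ := by rw [h5]

variable {ψ : ℂ → ℂ}

theorem fourier_GG (hψ : ∀ z : ℂ, 0 < z.im → ψ z = ∫ t in Set.Ioi (0 : ℝ), g t *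
      exp (I * Real.pi * z * t)) {y : ℝ} (hy : 0 < y) (ξ : ℝ) :
    𝓕 (GG g y) ξ = conj (ψ (((2 * ξ : ℝ) : ℂ) + y * I)) := by
  rw [hψ _ (by simpa using hy), ← integral_conj, Real.fourier_real_eq_integral_exp_smul]
  unfold GG
  rw [← integral_indicator measurableSet_Ioi]
  refine integral_congr_ae (Eventually.of_forall fun t => ?_)
  simp only
  by_cases ht : t ∈ Set.Ioi (0 : ℝ)
  · rw [Set.indicator_of_mem ht, Set.indicator_of_mem ht, smul_eq_mul, map_mul, ← exp_conj]
    rw [ofReal_exp, mul_left_comm, ← Complex.exp_add]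
    congr 2
    simp only [map_mul, map_add, conj_I, conj_ofReal]
    push_cast
    linear_combination (-(Real.pi * y * t) : ℂ) * I_mul_I
  · rw [Set.indicator_of_notMem ht, Set.indicator_of_notMem ht, smul_zero]

theorem inversion (hg : Continuous g) (hB : ∀ t, ‖g t‖ ≤ B * (1 + |t|))
    (hψ : ∀ z : ℂ, 0 < z.im → ψ z = ∫ t in Set.Ioi (0 : ℝ), g t * exp (I * Real.pi * z * t))
    {y : ℝ} (hy : 0 < y) (hint : Integrable (fun x : ℝ => ψ (x + y * I))) {s : ℝ} (hs : 0 < s) :
    ∫ x : ℝ, conj (ψ (x + y * I)) * ex s (x + y * I) =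
      2 * conj (g s) * (Real.exp (-(2 * Real.pi * y * s)) : ℝ) := by
  have h1 : Integrable (fun x : ℝ => conj (ψ (x + y * I))) := by
    have := (conjCLE : ℂ ≃L[ℝ] ℂ).toContinuousLinearMap.integrable_comp hint
    exact this
  have h2 : Integrable (𝓕 (GG g y)) := by
    have h3 : 𝓕 (GG g y) = fun ξ : ℝ => (fun x : ℝ => conj (ψ (x + y * I))) (2 * ξ) := by
      funext ξ
      rw [fourier_GG hψ hy]
    rw [h3]
    exact h1.comp_mul_left' two_ne_zero
  have hc : ContinuousAt (GG g y) s := by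
    have h3 : GG g y =ᶠ[𝓝 s] fun t => conj (g t) * (Real.exp (-(Real.pi * y * t)) : ℝ) := by
      filter_upwards [Ioi_mem_nhds hs] with t ht
      unfold GG
      rw [Set.indicator_of_mem ht]
    refine ContinuousAt.congr ?_ h3.symm
    refine Continuous.continuousAt ?_
    exact (Complex.continuous_conj.comp hg).mul (continuous_ofReal.comp (by fun_prop))
  have h4 := MeasureTheory.Integrable.fourierInv_fourier_eq (GG_int hg hB hy) h2 hc
  rw [Real.fourierInv_eq'] at h4
  have h5 : GG g y s = conj (g s) * (Real.exp (-(Real.pi * y * s)) : ℝ) := by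
    unfold GG
    rw [Set.indicator_of_mem (show s ∈ Set.Ioi (0 : ℝ) from hs)]
  rw [h5] at h4
  have h6 : ∀ ξ : ℝ, exp (((2 * Real.pi * inner ℝ ξ s : ℝ) : ℂ) * I) • 𝓕 (GG g y) ξ =
      (fun x : ℝ => conj (ψ (x + y * I)) * exp (((Real.pi * x * s : ℝ) : ℂ) * I)) (2 * ξ) := by
    intro ξ
    rw [fourier_GG hψ hy, smul_eq_mul, mul_comm]
    congr 3
    have : inner ℝ ξ s = s * ξ := by simp [inner]
    rw [this]
    push_cast
    ring
  simp_rw [h6] at h4
  rw [Measure.integral_comp_mul_left (fun x : ℝ => conj (ψ (x + y * I)) *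
    exp (((Real.pi * x * s : ℝ) : ℂ) * I)) 2] at h4
  have h7 : ∫ x : ℝ, conj (ψ (x + y * I)) * ex s (x + y * I) =
      (∫ x : ℝ, conj (ψ (x + y * I)) * exp (((Real.pi * x * s : ℝ) : ℂ) * I)) *
        (Real.exp (-(Real.pi * s * y)) : ℝ) := by
    rw [← integral_mul_const]
    refine integral_congr_ae (Eventually.of_forall fun x => ?_)
    simp only
    rw [ex_mk]
    ring
  have h8 : (∫ x : ℝ, conj (ψ (x + y * I)) * exp (((Real.pi * x * s : ℝ) : ℂ) * I)) =
      2 * (conj (g s) * (Real.exp (-(Real.pi * y * s)) : ℝ)) := by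
    rw [← h4, abs_of_pos (by norm_num : (0 : ℝ) < 2⁻¹), Complex.real_smul]
    push_cast
    ring
  rw [h7, h8]
  have h9 : Real.exp (-(2 * Real.pi * y * s)) =
      Real.exp (-(Real.pi * y * s)) * Real.exp (-(Real.pi * s * y)) := by
    rw [← Real.exp_add]
    congr 1
    ring
  rw [h9]
  push_cast
  ring

end fourier

section integr

theorem wt_int : Integrable wt := by
  have := integrable_rpow_neg_one_add_norm_sq (E := ℝ) (μ := volume) (r := 3 / 2) (by simp; norm_num)
  refine this.congr (Eventually.of_forall fun x => ?_)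
  simp only [wt, Real.norm_eq_abs, sq_abs]
  norm_num

theorem abs_rpow_int (a : ℝ) : IntegrableOn (fun x : ℝ => |x - a| ^ (-(3 / 4) : ℝ))
    (Set.Icc (-2) 2) := by
  have key0 : ∀ c : ℝ, 0 ≤ c →
      IntervalIntegrable (fun x : ℝ => |x| ^ (-(3 / 4) : ℝ)) volume 0 c := by
    intro c hc
    have h := intervalIntegral.intervalIntegrable_rpow' (a := 0) (b := c)
      (show (-1 : ℝ) < -(3 / 4) by norm_num)
    refine h.congr fun x hx => ?_
    rw [Set.uIoc_of_le hc] at hx
    simp only [abs_of_pos hx.1]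
  have key : ∀ c : ℝ, IntervalIntegrable (fun x : ℝ => |x| ^ (-(3 / 4) : ℝ)) volume 0 c := by
    intro c
    rcases le_total 0 c with hc | hc
    · exact key0 c hc
    · have h := key0 (-c) (by linarith)
      rw [IntervalIntegrable.iff_comp_neg] at h
      simpa only [abs_neg, neg_zero, neg_neg] using h
  have h1 : IntervalIntegrable (fun x : ℝ => |x| ^ (-(3 / 4) : ℝ)) volume (-2 - a) (2 - a) :=
    (key _).symm.trans (key _)
  have h2 := h1.comp_sub_right a
  simp only [sub_add_cancel] at h2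
  rwa [intervalIntegrable_iff_integrableOn_Icc_of_le (by norm_num)] at h2

/-- the dominating function -/
noncomputable def dm (C : ℝ) (x : ℝ) : ℝ := 6 * |C| * wt x + 4 * |C| *
  Set.indicator (Set.Icc (-2) 2) (fun x => 1 + (|x - 1| ^ (-(3 / 4) : ℝ) +
    |x + 1| ^ (-(3 / 4) : ℝ))) x

theorem dm_int (C : ℝ) : Integrable (dm C) := by
  refine (wt_int.const_mul _).add (Integrable.const_mul ?_ _)
  rw [integrable_indicator_iff measurableSet_Icc]
  refine IntegrableOn.add ?_ (IntegrableOn.add (abs_rpow_int 1) ?_)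
  · exact (continuous_const.integrableOn_Icc)
  · have := abs_rpow_int (-1)
    simpa only [sub_neg_eq_add] using this

end integr

end Pool.Agent.W345.SQ
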